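import Mathlib

/-!
# Components after deletion of a set of vertices (helper file for MP_12e671_al)

`Cn G T a b`: `a` and `b` are joined by a path whose vertices avoid `T`.
`cl G T v`: the class of `v`.  `comps G T`: the set of the components of `G - T`.
-/

set_option autoImplicit false
set_option linter.unusedSectionVars false

open Finset
open scoped Classical

namespace Pool.Agent.N800.AG

variable {V : Type*} [Fintype V] {G : SimpleGraph V}

/-- one step of a path which avoids `T` -/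
def St (G : SimpleGraph V) (T : Finset V) (a b : V) : Prop := G.Adj a b ∧ a ∉ T ∧ b ∉ T

/-- joined by a path which avoids `T` -/
def Cn (G : SimpleGraph V) (T : Finset V) : V → V → Prop := Relation.ReflTransGen (St G T)

theorem Cn.rfl' {T : Finset V} {a : V} : Cn G T a a := Relation.ReflTransGen.refl

theorem Cn.symm {T : Finset V} {a b : V} (h : Cn G T a b) : Cn G T b a := by
  induction h with
  | refl => exact Relation.ReflTransGen.refl
  | tail _ hs ih => exact Relation.ReflTransGen.head ⟨hs.1.symm, hs.2.2, hs.2.1⟩ ih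

theorem Cn.trans {T : Finset V} {a b c : V} (h : Cn G T a b) (h' : Cn G T b c) : Cn G T a c :=
  Relation.ReflTransGen.trans h h'

theorem Cn.step {T : Finset V} {a b c : V} (h : Cn G T a b) (h1 : G.Adj b c) (h2 : b ∉ T)
    (h3 : c ∉ T) : Cn G T a c :=
  Relation.ReflTransGen.tail h ⟨h1, h2, h3⟩

theorem Cn.one {T : Finset V} {b c : V} (h1 : G.Adj b c) (h2 : b ∉ T)
    (h3 : c ∉ T) : Cn G T b c :=
  Cn.step Cn.rfl' h1 h2 h3

theorem Cn.mono {T T' : Finset V} (hT : T ⊆ T') {a b : V} (h : Cn G T' a b) : Cn G T a b := by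
  induction h with
  | refl => exact Relation.ReflTransGen.refl
  | tail _ hs ih =>
    exact Relation.ReflTransGen.tail ih ⟨hs.1, fun h => hs.2.1 (hT h), fun h => hs.2.2 (hT h)⟩

theorem Cn.notMem {T : Finset V} {a b : V} (h : Cn G T a b) (ha : a ∉ T) : b ∉ T := by
  induction h with
  | refl => exact ha
  | tail _ h2 _ => exact h2.2.2

/-- the class of `v` -/
noncomputable def cl (G : SimpleGraph V) (T : Finset V) (v : V) : Finset V :=
  univ.filter (fun u => Cn G T v u)

theorem mem_cl {T : Finset V} {u v : V} : u ∈ cl G T v ↔ Cn G T v u := by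
  simp [cl]

theorem self_mem_cl {T : Finset V} {v : V} : v ∈ cl G T v := mem_cl.2 Cn.rfl'

theorem cl_eq_iff {T : Finset V} {u v : V} : cl G T u = cl G T v ↔ Cn G T u v := by
  constructor
  · intro h
    have : v ∈ cl G T u := by rw [h]; exact self_mem_cl
    exact mem_cl.1 this
  · intro h
    ext w
    rw [mem_cl, mem_cl]
    exact ⟨fun h' => h.symm.trans h', fun h' => h.trans h'⟩

/-- the components of `G - T` -/
noncomputable def comps (G : SimpleGraph V) (T : Finset V) : Finset (Finset V) :=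
  (univ.filter (fun v => v ∉ T)).image (cl G T)

theorem mem_comps {T : Finset V} {D : Finset V} :
    D ∈ comps G T ↔ ∃ v, v ∉ T ∧ cl G T v = D := by
  simp [comps]

theorem cl_mem_comps {T : Finset V} {v : V} (hv : v ∉ T) : cl G T v ∈ comps G T :=
  mem_comps.2 ⟨v, hv, rfl⟩

theorem eq_cl_of_mem {T : Finset V} {D : Finset V} (hD : D ∈ comps G T) {v : V} (hv : v ∈ D) :
    D = cl G T v := by
  obtain ⟨w, _, rfl⟩ := mem_comps.1 hD
  exact cl_eq_iff.2 (mem_cl.1 hv)

theorem notMem_of_mem_comps {T : Finset V} {D : Finset V} (hD : D ∈ comps G T) {v : V}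
    (hv : v ∈ D) : v ∉ T := by
  obtain ⟨w, hw, rfl⟩ := mem_comps.1 hD
  exact (mem_cl.1 hv).notMem hw

/-- a path which may use `t`: either it avoids `t`, or its start reaches a neighbour of `t` -/
theorem split {T : Finset V} {t p w : V} (hp : p ∉ T) (h : Cn G (T.erase t) p w) (ht : t ∈ T) :
    (w ≠ t ∧ Cn G T p w) ∨ ∃ u, u ∉ T ∧ G.Adj u t ∧ Cn G T p u := by
  induction h with
  | refl => exact Or.inl ⟨fun h => hp (h ▸ ht), Cn.rfl'⟩
  | @tail b c hb hs ih =>
    rcases ih with ⟨h1, h2⟩ | h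
    · have hbT : b ∉ T := h2.notMem hp
      by_cases hc : c = t
      · exact Or.inr ⟨b, hbT, hc ▸ hs.1, h2⟩
      · refine Or.inl ⟨hc, h2.step hs.1 hbT ?_⟩
        intro hcT
        exact hs.2.2 (Finset.mem_erase.2 ⟨hc, hcT⟩)
    · exact Or.inr h

/-- the map from the components of `G - T` to those of `G - T'`, `T' ⊆ T` -/
noncomputable def up (G : SimpleGraph V) (T' : Finset V) (D : Finset V) : Finset V :=
  univ.filter (fun w => ∃ v ∈ D, Cn G T' v w)

theorem up_cl {T T' : Finset V} (hT : T' ⊆ T) (v : V) : up G T' (cl G T v) = cl G T' v := by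
  ext w
  simp only [up, Finset.mem_filter, Finset.mem_univ, true_and, mem_cl]
  constructor
  · rintro ⟨u, h1, h2⟩
    exact (h1.mono hT).trans h2
  · intro h
    exact ⟨v, Cn.rfl', h⟩

theorem comps_erase_eq {T : Finset V} {t u : V} (ht : t ∈ T) (hu : u ∉ T) (hut : G.Adj u t) :
    comps G (T.erase t) = (comps G T).image (up G (T.erase t)) := by
  ext D
  rw [Finset.mem_image]
  constructor
  · intro hD
    obtain ⟨v, hv, rfl⟩ := mem_comps.1 hD
    by_cases hvt : v = t
    · subst hvt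
      refine ⟨cl G T u, cl_mem_comps hu, ?_⟩
      rw [up_cl (Finset.erase_subset _ _), cl_eq_iff]
      exact Cn.one hut (fun h => hu (Finset.mem_of_mem_erase h)) (Finset.notMem_erase _ _)
    · have hvT : v ∉ T := fun h => hv (Finset.mem_erase.2 ⟨hvt, h⟩)
      exact ⟨cl G T v, cl_mem_comps hvT, up_cl (Finset.erase_subset _ _) v⟩
  · rintro ⟨D', hD', rfl⟩
    obtain ⟨v, hv, rfl⟩ := mem_comps.1 hD'
    rw [up_cl (Finset.erase_subset _ _)]
    exact cl_mem_comps (fun h => hv (Finset.mem_of_mem_erase h))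

/-- number of components -/
noncomputable def cc (G : SimpleGraph V) (T : Finset V) : ℕ := (comps G T).card

theorem cc_erase_lt {T : Finset V} {t u v : V} (ht : t ∈ T) (hu : u ∉ T) (hut : G.Adj u t)
    (hv : v ∉ T) (hvt : G.Adj v t) (huv : ¬ Cn G T u v) : cc G (T.erase t) < cc G T := by
  unfold cc
  rw [comps_erase_eq ht hu hut]
  refine lt_of_le_of_ne Finset.card_image_le ?_
  intro h
  have hinj := Finset.card_image_iff.1 h
  have h1 : up G (T.erase t) (cl G T u) = up G (T.erase t) (cl G T v) := by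
    rw [up_cl (Finset.erase_subset _ _), up_cl (Finset.erase_subset _ _), cl_eq_iff]
    have hu' : u ∉ T.erase t := fun h => hu (Finset.mem_of_mem_erase h)
    have hv' : v ∉ T.erase t := fun h => hv (Finset.mem_of_mem_erase h)
    have ht' : t ∉ T.erase t := Finset.notMem_erase _ _
    exact (Cn.one hut hu' ht').trans (Cn.one hvt.symm ht' hv')
  exact huv (cl_eq_iff.1 (hinj (cl_mem_comps hu) (cl_mem_comps hv) h1))

theorem cc_le_erase {T : Finset V} {t : V} (ht : t ∈ T)
    (h : ∀ u v, u ∉ T → v ∉ T → G.Adj u t → G.Adj v t → Cn G T u v) :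
    cc G T ≤ cc G (T.erase t) := by
  unfold cc
  refine Finset.card_le_card_of_injOn (up G (T.erase t)) ?_ ?_
  · intro D hD
    obtain ⟨v, hv, rfl⟩ := mem_comps.1 hD
    rw [up_cl (Finset.erase_subset _ _)]
    exact cl_mem_comps (fun h => hv (Finset.mem_of_mem_erase h))
  · intro D hD D' hD' hDD
    obtain ⟨p, hp, rfl⟩ := mem_comps.1 hD
    obtain ⟨q, hq, rfl⟩ := mem_comps.1 hD'
    rw [up_cl (Finset.erase_subset _ _), up_cl (Finset.erase_subset _ _), cl_eq_iff] at hDD
    rw [cl_eq_iff]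
    rcases split hp hDD ht with ⟨_, h1⟩ | ⟨u, hu, hut, h1⟩
    · exact h1
    · rcases split hq hDD.symm ht with ⟨_, h2⟩ | ⟨v, hv, hvt, h2⟩
      · exact h2.symm
      · exact (h1.trans (h u v hu hv hut hvt)).trans h2.symm

theorem cc_erase_lt2 {T : Finset V} {t u v w : V} (ht : t ∈ T) (hu : u ∉ T) (hut : G.Adj u t)
    (hv : v ∉ T) (hvt : G.Adj v t) (hw : w ∉ T) (hwt : G.Adj w t)
    (huv : ¬ Cn G T u v) (huw : ¬ Cn G T u w) (hvw : ¬ Cn G T v w) :
    cc G (T.erase t) + 2 ≤ cc G T := by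
  unfold cc
  have hsub : comps G (T.erase t) ⊆
      (((comps G T).erase (cl G T v)).erase (cl G T w)).image (up G (T.erase t)) := by
    rw [comps_erase_eq ht hu hut]
    intro D hD
    obtain ⟨D', hD', rfl⟩ := Finset.mem_image.1 hD
    have hu' : u ∉ T.erase t := fun h => hu (Finset.mem_of_mem_erase h)
    have hv' : v ∉ T.erase t := fun h => hv (Finset.mem_of_mem_erase h)
    have hw' : w ∉ T.erase t := fun h => hw (Finset.mem_of_mem_erase h)
    have ht' : t ∉ T.erase t := Finset.notMem_erase _ _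
    have huD : cl G T u ∈ ((comps G T).erase (cl G T v)).erase (cl G T w) := by
      refine Finset.mem_erase.2 ⟨fun h => huw (cl_eq_iff.1 h), ?_⟩
      exact Finset.mem_erase.2 ⟨fun h => huv (cl_eq_iff.1 h), cl_mem_comps hu⟩
    by_cases h1 : D' = cl G T w
    · refine Finset.mem_image.2 ⟨cl G T u, huD, ?_⟩
      rw [h1, up_cl (Finset.erase_subset _ _), up_cl (Finset.erase_subset _ _), cl_eq_iff]
      exact (Cn.one hut hu' ht').trans (Cn.one hwt.symm ht' hw')
    · by_cases h2 : D' = cl G T v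
      · refine Finset.mem_image.2 ⟨cl G T u, huD, ?_⟩
        rw [h2, up_cl (Finset.erase_subset _ _), up_cl (Finset.erase_subset _ _), cl_eq_iff]
        exact (Cn.one hut hu' ht').trans (Cn.one hvt.symm ht' hv')
      · exact Finset.mem_image.2 ⟨D', Finset.mem_erase.2 ⟨h1, Finset.mem_erase.2 ⟨h2, hD'⟩⟩, rfl⟩
  have h1 := (Finset.card_le_card hsub).trans Finset.card_image_le
  have h2 : cl G T w ∈ (comps G T).erase (cl G T v) :=
    Finset.mem_erase.2 ⟨fun h => hvw (cl_eq_iff.1 h.symm), cl_mem_comps hw⟩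
  have h3 : cl G T v ∈ comps G T := cl_mem_comps hv
  have h4 := Finset.card_erase_of_mem h2
  have h5 := Finset.card_erase_of_mem h3
  have h6 : 0 < ((comps G T).erase (cl G T v)).card := Finset.card_pos.2 ⟨_, h2⟩
  omega

/-- cut set -/
def Valid (G : SimpleGraph V) (T : Finset V) : Prop := ∀ t ∈ T, cc G (T.erase t) < cc G T

theorem Valid.of_two {T : Finset V}
    (h : ∀ t ∈ T, ∃ u v, u ∉ T ∧ v ∉ T ∧ G.Adj u t ∧ G.Adj v t ∧ ¬ Cn G T u v) : Valid G T := by
  intro t ht
  obtain ⟨u, v, hu, hv, hut, hvt, huv⟩ := h t ht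
  exact cc_erase_lt ht hu hut hv hvt huv

theorem Valid.two {T : Finset V} (h : Valid G T) {t : V} (ht : t ∈ T) :
    ∃ u v, u ∉ T ∧ v ∉ T ∧ G.Adj u t ∧ G.Adj v t ∧ ¬ Cn G T u v := by
  by_contra hno
  push Not at hno
  exact absurd (h t ht) (not_lt.2 (cc_le_erase ht (fun u v hu hv hut hvt =>
    hno u v hu hv hut hvt)))

/-- unmixed -/
def Unm (G : SimpleGraph V) : Prop := ∀ T : Finset V, Valid G T → cc G T = T.card + cc G ∅

theorem Unm.le (hU : Unm G) : ∀ (n : ℕ) (T : Finset V), T.card = n → cc G T ≤ T.card + cc G ∅ := by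
  intro n
  induction n with
  | zero =>
    intro T hT
    rw [Finset.card_eq_zero] at hT
    subst hT
    simp
  | succ n ih =>
    intro T hT
    by_cases hv : Valid G T
    · exact (hU T hv).le
    · unfold Valid at hv
      push Not at hv
      obtain ⟨t, ht, h⟩ := hv
      have h1 := Finset.card_erase_of_mem ht
      have h2 := ih (T.erase t) (by omega)
      omega

theorem Unm.bound (hU : Unm G) (T : Finset V) : cc G T ≤ T.card + cc G ∅ := hU.le _ T rfl

theorem Unm.valid_of_eq (hU : Unm G) {T : Finset V} (h : T.card + cc G ∅ ≤ cc G T) :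
    Valid G T := by
  intro t ht
  by_contra hlt
  push Not at hlt
  have h1 := Finset.card_erase_of_mem ht
  have h2 := hU.bound (T.erase t)
  have h3 : 0 < T.card := Finset.card_pos.2 ⟨t, ht⟩
  omega

/-! ### kept sets and nodes -/

/-- the components of `G[K]` -/
noncomputable def nodes (G : SimpleGraph V) (K : Finset V) : Finset (Finset V) := comps G Kᶜ

/-- the neighbours of a node -/
noncomputable def Nb (G : SimpleGraph V) (K : Finset V) (k : Finset V) : Finset V :=
  univ.filter (fun v => v ∉ K ∧ ∃ u ∈ k, G.Adj u v)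

theorem mem_Nb {K k : Finset V} {v : V} : v ∈ Nb G K k ↔ v ∉ K ∧ ∃ u ∈ k, G.Adj u v := by
  simp [Nb]

theorem node_sub {K k : Finset V} (hk : k ∈ nodes G K) {v : V} (hv : v ∈ k) : v ∈ K := by
  have := notMem_of_mem_comps hk hv
  simpa using this

theorem node_eq {K k : Finset V} (hk : k ∈ nodes G K) {v : V} (hv : v ∈ k) :
    k = cl G Kᶜ v := eq_cl_of_mem hk hv

theorem cl_mem_nodes {K : Finset V} {v : V} (hv : v ∈ K) : cl G Kᶜ v ∈ nodes G K :=
  cl_mem_comps (by simpa using hv)

theorem node_nonempty {K k : Finset V} (hk : k ∈ nodes G K) : k.Nonempty := by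
  obtain ⟨v, _, rfl⟩ := mem_comps.1 hk
  exact ⟨v, self_mem_cl⟩

theorem node_conn {K k : Finset V} (hk : k ∈ nodes G K) {u v : V} (hu : u ∈ k) (hv : v ∈ k)
    {T : Finset V} (hT : Disjoint T K) : Cn G T u v := by
  rw [node_eq hk hu] at hv
  refine (mem_cl.1 hv).mono ?_
  intro a ha
  rw [Finset.mem_compl]
  exact fun h => (Finset.disjoint_left.1 hT ha) h

/-- if all the neighbours of the node of `p` are deleted, the node is a component -/
theorem cl_eq_node {K T : Finset V} (hT : Disjoint T K) {p : V} (hp : p ∈ K)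
    (h : Nb G K (cl G Kᶜ p) ⊆ T) : cl G T p = cl G Kᶜ p := by
  have hTK : T ⊆ Kᶜ := by
    intro a ha
    rw [Finset.mem_compl]
    exact fun h => (Finset.disjoint_left.1 hT ha) h
  ext w
  rw [mem_cl, mem_cl]
  refine ⟨fun hw => ?_, fun hw => hw.mono hTK⟩
  induction hw with
  | refl => exact Cn.rfl'
  | @tail b c hb hs ih =>
    have hbK : b ∈ K := by
      have := ih.notMem (by simpa using hp : p ∉ Kᶜ)
      simpa using this
    by_cases hc : c ∈ K
    · exact ih.step hs.1 (by simpa using hbK) (by simpa using hc)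
    · exact absurd (h (mem_Nb.2 ⟨hc, b, mem_cl.2 ih, hs.1⟩)) hs.2.2

theorem node_mem_comps {K T k : Finset V} (hT : Disjoint T K) (hk : k ∈ nodes G K)
    (h : Nb G K k ⊆ T) : k ∈ comps G T := by
  obtain ⟨p, hp⟩ := node_nonempty hk
  have hpK := node_sub hk hp
  have hkp := node_eq hk hp
  rw [hkp] at h ⊢
  rw [← cl_eq_node hT hpK h]
  exact cl_mem_comps (fun hpT => Finset.disjoint_left.1 hT hpT hpK)

/-- the nodes isolated by `T` -/
noncomputable def iso (G : SimpleGraph V) (K T : Finset V) : Finset (Finset V) :=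
  (nodes G K).filter (fun k => Nb G K k ⊆ T)

theorem iso_lower {K T : Finset V} (hT : Disjoint T K) {m : V} (hmK : m ∉ K) (hmT : m ∉ T) :
    (iso G K T).card + 1 ≤ cc G T := by
  unfold cc
  have hnot : cl G T m ∉ iso G K T := by
    intro h
    exact hmK (node_sub (Finset.mem_filter.1 h).1 self_mem_cl)
  rw [← Finset.card_insert_of_notMem hnot]
  refine Finset.card_le_card ?_
  intro D hD
  rcases Finset.mem_insert.1 hD with rfl | h
  · exact cl_mem_comps hmT
  · exact node_mem_comps hT (Finset.mem_filter.1 h).1 (Finset.mem_filter.1 h).2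

theorem comps_main {K T : Finset V} (hT : Disjoint T K) {m : V} (hmK : m ∉ K) (hmT : m ∉ T)
    (H : ∀ v, v ∉ K → v ∉ T → Cn G T m v) : cc G T = (iso G K T).card + 1 := by
  refine le_antisymm ?_ (iso_lower hT hmK hmT)
  unfold cc
  have hsub : comps G T ⊆ insert (cl G T m) (iso G K T) := by
    intro D hD
    obtain ⟨v, hv, rfl⟩ := mem_comps.1 hD
    rw [Finset.mem_insert]
    by_cases hvK : v ∈ K
    · by_cases hN : Nb G K (cl G Kᶜ v) ⊆ T
      · right
        rw [cl_eq_node hT hvK hN]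
        exact Finset.mem_filter.2 ⟨cl_mem_nodes hvK, hN⟩
      · left
        rw [Finset.not_subset] at hN
        obtain ⟨w, hw, hwT⟩ := hN
        obtain ⟨hwK, u, hu, huw⟩ := mem_Nb.1 hw
        have huK : u ∈ K := node_sub (cl_mem_nodes hvK) hu
        have huT : u ∉ T := fun h => Finset.disjoint_left.1 hT h huK
        have h1 : Cn G T v u := node_conn (cl_mem_nodes hvK) self_mem_cl hu hT
        rw [cl_eq_iff]
        exact (h1.step huw huT hwT).trans (H w hwK hwT).symm
    · left
      rw [cl_eq_iff]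
      exact (H v hvK hv).symm
  exact (Finset.card_le_card hsub).trans (Finset.card_insert_le _ _)

/-- the union of the neighbourhoods of a family of nodes -/
noncomputable def NB (G : SimpleGraph V) (K : Finset V) (A : Finset (Finset V)) : Finset V :=
  A.biUnion (Nb G K)

theorem mem_NB {K : Finset V} {A : Finset (Finset V)} {v : V} :
    v ∈ NB G K A ↔ ∃ k ∈ A, v ∈ Nb G K k := by
  simp [NB]

theorem NB_disj {K : Finset V} {A : Finset (Finset V)} : Disjoint (NB G K A) K := by
  rw [Finset.disjoint_left]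
  intro v hv hvK
  obtain ⟨k, _, hk⟩ := mem_NB.1 hv
  exact (mem_Nb.1 hk).1 hvK

/-- the main counting lemma -/
theorem count {K : Finset V} (hU : Unm G) {A : Finset (Finset V)} (hA : A ⊆ nodes G K) {m : V}
    (hmK : m ∉ K) (hmT : m ∉ NB G K A)
    (H : ∀ v, v ∉ K → v ≠ m → ∃ w, G.Adj v w ∧ w ∉ NB G K A ∧ Cn G (NB G K A) w m) :
    (NB G K A).card + cc G ∅ = (iso G K (NB G K A)).card + 1 := by
  have hmain := comps_main (G := G) (K := K) (T := NB G K A) NB_disj hmK hmT (by
    intro v hvK hvT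
    by_cases hvm : v = m
    · rw [hvm]; exact Cn.rfl'
    · obtain ⟨w, h1, h2, h3⟩ := H v hvK hvm
      exact ((Cn.one h1 hvT h2).trans h3).symm)
  rw [← hmain]
  refine (hU _ (Valid.of_two ?_)).symm
  intro t ht
  obtain ⟨k, hk, htk⟩ := mem_NB.1 ht
  obtain ⟨htK, u, hu, hut⟩ := mem_Nb.1 htk
  have htm : t ≠ m := fun h => hmT (h ▸ ht)
  obtain ⟨w, h1, h2, h3⟩ := H t htK htm
  have huK : u ∈ K := node_sub (hA hk) hu
  have huT : u ∉ NB G K A := fun h => Finset.disjoint_left.1 NB_disj h huK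
  refine ⟨u, w, huT, h2, hut, h1.symm, ?_⟩
  intro huw
  have hNb : Nb G K (cl G Kᶜ u) ⊆ NB G K A := by
    rw [← node_eq (hA hk) hu]
    intro v hv
    exact mem_NB.2 ⟨k, hk, hv⟩
  have h4 : m ∈ cl G (NB G K A) u := mem_cl.2 (huw.trans h3)
  rw [cl_eq_node NB_disj huK hNb] at h4
  exact hmK (node_sub (cl_mem_nodes huK) h4)

/-- joined by an edge or through a node of `K` -/
def Ap (G : SimpleGraph V) (K : Finset V) (u v : V) : Prop :=
  G.Adj u v ∨ ∃ k ∈ nodes G K, u ∈ Nb G K k ∧ v ∈ Nb G K k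

theorem Ap.symm {K : Finset V} {u v : V} (h : Ap G K u v) : Ap G K v u := by
  rcases h with h | ⟨k, h1, h2, h3⟩
  · exact Or.inl h.symm
  · exact Or.inr ⟨k, h1, h3, h2⟩

theorem Ap.reach {K T : Finset V} (hT : Disjoint T K) {u v : V} (h : Ap G K u v) (hv : v ∉ T) :
    ∃ w, G.Adj u w ∧ w ∉ T ∧ Cn G T w v := by
  rcases h with h | ⟨k, h1, h2, h3⟩
  · exact ⟨v, h, hv, Cn.rfl'⟩
  · obtain ⟨_, p, hp, hpu⟩ := mem_Nb.1 h2
    obtain ⟨_, q, hq, hqv⟩ := mem_Nb.1 h3
    have hpT : p ∉ T := fun h => Finset.disjoint_left.1 hT h (node_sub h1 hp)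
    have hqT : q ∉ T := fun h => Finset.disjoint_left.1 hT h (node_sub h1 hq)
    exact ⟨p, hpu.symm, hpT, (node_conn h1 hp hq hT).step hqv hqT hv⟩

theorem Ap.cn {K T : Finset V} (hT : Disjoint T K) {u v : V} (h : Ap G K u v) (hu : u ∉ T)
    (hv : v ∉ T) : Cn G T u v := by
  obtain ⟨w, h1, h2, h3⟩ := h.reach hT hv
  exact (Cn.one h1 hu h2).trans h3

end Pool.Agent.N800.AG
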