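import Pool.Agent.N800.AG.A

/-!
# Counting nodes; the two intersection lemmas (helper file for MP_12e671_al)
-/

set_option autoImplicit false
set_option linter.unusedSectionVars false

open Finset
open scoped Classical

namespace Pool.Agent.N800.AG

variable {V : Type*} [Fintype V] {G : SimpleGraph V}

theorem lower {K T : Finset V} (hT : Disjoint T K) {A : Finset (Finset V)} (hA : A ⊆ nodes G K)
    (hAT : ∀ k ∈ A, Nb G K k ⊆ T) {p : V} (hp : p ∉ T) (hpA : ∀ k ∈ A, p ∉ k) :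
    A.card + 1 ≤ cc G T := by
  unfold cc
  have hnot : cl G T p ∉ A := fun h => hpA _ h self_mem_cl
  rw [← Finset.card_insert_of_notMem hnot]
  refine Finset.card_le_card ?_
  intro D hD
  rcases Finset.mem_insert.1 hD with rfl | h
  · exact cl_mem_comps hp
  · exact node_mem_comps hT (hA h) (hAT _ h)

theorem NB_mono {K : Finset V} {A B : Finset (Finset V)} (h : A ⊆ B) : NB G K A ⊆ NB G K B := by
  intro v hv
  obtain ⟨k, hk, hvk⟩ := mem_NB.1 hv
  exact mem_NB.2 ⟨k, h hk, hvk⟩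

theorem Nb_sub_NB {K : Finset V} {A : Finset (Finset V)} {k : Finset V} (h : k ∈ A) :
    Nb G K k ⊆ NB G K A := fun _ hv => mem_NB.2 ⟨k, h, hv⟩

/-- the intersection lemma -/
theorem inter_lemma {K : Finset V} (hU : Unm G) {A B : Finset (Finset V)}
    (hA : A ⊆ nodes G K) (hB : B ⊆ nodes G K)
    (h1 : (NB G K A).card + cc G ∅ = A.card + 1)
    (h2 : (NB G K B).card + cc G ∅ = B.card + 1)
    (h0 : (NB G K (A ∩ B)).card + cc G ∅ = (A ∩ B).card + 1)
    {p : V} (hpA : p ∉ NB G K A) (hpB : p ∉ NB G K B) (hkA : ∀ k ∈ A, p ∉ k)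
    (hkB : ∀ k ∈ B, p ∉ k) :
    NB G K A ∩ NB G K B ⊆ NB G K (A ∩ B) := by
  have hT : Disjoint (NB G K A ∪ NB G K B) K := by
    rw [Finset.disjoint_union_left]
    exact ⟨NB_disj, NB_disj⟩
  have hlow := lower (G := G) (K := K) (T := NB G K A ∪ NB G K B) hT (A := A ∪ B)
    (Finset.union_subset hA hB) (by
      intro k hk
      rcases Finset.mem_union.1 hk with h | h
      · exact (Nb_sub_NB h).trans Finset.subset_union_left
      · exact (Nb_sub_NB h).trans Finset.subset_union_right)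
    (p := p) (by
      rw [Finset.mem_union]
      rintro (h | h)
      · exact hpA h
      · exact hpB h) (by
      intro k hk
      rcases Finset.mem_union.1 hk with h | h
      · exact hkA k h
      · exact hkB k h)
  have hup := hU.bound (NB G K A ∪ NB G K B)
  have e1 := Finset.card_union_add_card_inter A B
  have e2 := Finset.card_union_add_card_inter (NB G K A) (NB G K B)
  have hsub : NB G K (A ∩ B) ⊆ NB G K A ∩ NB G K B :=
    Finset.subset_inter (NB_mono Finset.inter_subset_left) (NB_mono Finset.inter_subset_right)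
  have : NB G K (A ∩ B) = NB G K A ∩ NB G K B :=
    Finset.eq_of_subset_of_card_le hsub (by omega)
  rw [this]

/-- nodes without neighbours in `S` -/
noncomputable def AS (G : SimpleGraph V) (K S : Finset V) : Finset (Finset V) :=
  (nodes G K).filter (fun k => ∀ s ∈ S, s ∉ Nb G K k)

theorem mem_AS {K S : Finset V} {k : Finset V} :
    k ∈ AS G K S ↔ k ∈ nodes G K ∧ ∀ s ∈ S, s ∉ Nb G K k := by
  simp [AS]

theorem AS_sub {K S : Finset V} : AS G K S ⊆ nodes G K := Finset.filter_subset _ _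

theorem AS_inter {K S S' : Finset V} : AS G K S ∩ AS G K S' = AS G K (S ∪ S') := by
  ext k
  simp only [Finset.mem_inter, mem_AS, Finset.mem_union]
  constructor
  · rintro ⟨⟨h1, h2⟩, _, h3⟩
    refine ⟨h1, ?_⟩
    rintro s (h | h)
    · exact h2 s h
    · exact h3 s h
  · rintro ⟨h1, h2⟩
    exact ⟨⟨h1, fun s hs => h2 s (Or.inl hs)⟩, h1, fun s hs => h2 s (Or.inr hs)⟩

theorem notMem_NB_AS {K S : Finset V} {s : V} (hs : s ∈ S) : s ∉ NB G K (AS G K S) := by
  intro h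
  obtain ⟨k, hk, hsk⟩ := mem_NB.1 h
  exact (mem_AS.1 hk).2 s hs hsk

theorem iso_AS {K S : Finset V} : iso G K (NB G K (AS G K S)) = AS G K S := by
  ext k
  unfold iso
  rw [Finset.mem_filter]
  constructor
  · rintro ⟨h1, h2⟩
    refine mem_AS.2 ⟨h1, ?_⟩
    intro s hs hsk
    exact notMem_NB_AS hs (h2 hsk)
  · intro h
    exact ⟨(mem_AS.1 h).1, Nb_sub_NB h⟩

theorem count_AS {K S : Finset V} (hU : Unm G) {m : V} (hm : m ∈ S) (hmK : m ∉ K)
    (H : ∀ v, v ∉ K → v ≠ m → Ap G K v m) :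
    (NB G K (AS G K S)).card + cc G ∅ = (AS G K S).card + 1 := by
  have h := count (G := G) (K := K) hU (A := AS G K S) AS_sub hmK (notMem_NB_AS hm)
    (fun v hvK hvm => (H v hvK hvm).reach NB_disj (notMem_NB_AS hm))
  rw [iso_AS] at h
  exact h

/-- the sun lemma: in a sun structure `x` has a private node -/
theorem sun {K : Finset V} (hU : Unm G) {x y z : V} (hy : y ∉ K) (hz : z ∉ K)
    {a b c : Finset V} (ha : a ∈ nodes G K) (hb : b ∈ nodes G K) (hc : c ∈ nodes G K)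
    (hax : x ∈ Nb G K a) (hay : y ∉ Nb G K a)
    (hbx : x ∈ Nb G K b) (hbz : z ∉ Nb G K b)
    (hcy : y ∈ Nb G K c) (hcz : z ∈ Nb G K c)
    (Hy : ∀ v, v ∉ K → v ≠ y → Ap G K v y) (Hz : ∀ v, v ∉ K → v ≠ z → Ap G K v z) :
    ∃ k ∈ nodes G K, x ∈ Nb G K k ∧ y ∉ Nb G K k ∧ z ∉ Nb G K k := by
  obtain ⟨p, hp⟩ := node_nonempty hc
  have hpK := node_sub hc hp
  have h1 := count_AS (G := G) (K := K) (S := {y}) hU (m := y) (by simp) hy Hy
  have h2 := count_AS (G := G) (K := K) (S := {z}) hU (m := z) (by simp) hz Hz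
  have h0 := count_AS (G := G) (K := K) (S := {y} ∪ {z}) hU (m := y) (by simp) hy Hy
  have hpnot : ∀ A : Finset (Finset V), p ∉ NB G K A := fun A h =>
    Finset.disjoint_left.1 NB_disj h hpK
  have key := inter_lemma (G := G) (K := K) hU (A := AS G K {y}) (B := AS G K {z}) AS_sub AS_sub
    h1 h2 (by rw [AS_inter]; exact h0) (p := p) (hpnot _) (hpnot _) (by
      intro k hk hpk
      have hkc : k = c := by rw [node_eq (mem_AS.1 hk).1 hpk, node_eq hc hp]
      exact (mem_AS.1 hk).2 y (by simp) (hkc ▸ hcy)) (by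
      intro k hk hpk
      have hkc : k = c := by rw [node_eq (mem_AS.1 hk).1 hpk, node_eq hc hp]
      exact (mem_AS.1 hk).2 z (by simp) (hkc ▸ hcz))
  have hx : x ∈ NB G K (AS G K {y}) ∩ NB G K (AS G K {z}) := by
    refine Finset.mem_inter.2 ⟨mem_NB.2 ⟨a, mem_AS.2 ⟨ha, ?_⟩, hax⟩,
      mem_NB.2 ⟨b, mem_AS.2 ⟨hb, ?_⟩, hbx⟩⟩
    · intro s hs
      rw [Finset.mem_singleton] at hs
      exact hs ▸ hay
    · intro s hs
      rw [Finset.mem_singleton] at hs
      exact hs ▸ hbz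
  have hx' := key hx
  rw [AS_inter] at hx'
  obtain ⟨k, hk, hxk⟩ := mem_NB.1 hx'
  exact ⟨k, (mem_AS.1 hk).1, hxk, (mem_AS.1 hk).2 y (by simp), (mem_AS.1 hk).2 z (by simp)⟩

/-! ### enlarging the kept set by one vertex -/

theorem compl_insert_erase (K : Finset V) (o : V) : (insert o K)ᶜ = Kᶜ.erase o := by
  ext v
  simp

theorem Ap.mono {K K' : Finset V} (hK : K ⊆ K') {u v : V} (hu : u ∉ K') (hv : v ∉ K')
    (h : Ap G K u v) : Ap G K' u v := by
  rcases h with h | ⟨k, h1, h2, h3⟩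
  · exact Or.inl h
  · right
    obtain ⟨_, p, hp, hpu⟩ := mem_Nb.1 h2
    obtain ⟨_, q, hq, hqv⟩ := mem_Nb.1 h3
    have hpK := node_sub h1 hp
    refine ⟨cl G K'ᶜ p, cl_mem_nodes (hK hpK), mem_Nb.2 ⟨hu, p, self_mem_cl, hpu⟩,
      mem_Nb.2 ⟨hv, q, mem_cl.2 ?_, hqv⟩⟩
    refine node_conn h1 hp hq ?_
    rw [Finset.disjoint_left]
    intro a ha haK
    rw [Finset.mem_compl] at ha
    exact ha (hK haK)

theorem node_mono {K K' : Finset V} (hK : K ⊆ K') {u v : V} (hu : u ∉ K') (hv : v ∉ K')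
    {k : Finset V} (h1 : k ∈ nodes G K) (h2 : u ∈ Nb G K k) (h3 : v ∈ Nb G K k) :
    ∃ k' ∈ nodes G K', k ⊆ k' ∧ u ∈ Nb G K' k' ∧ v ∈ Nb G K' k' := by
  obtain ⟨_, p, hp, hpu⟩ := mem_Nb.1 h2
  obtain ⟨_, q, hq, hqv⟩ := mem_Nb.1 h3
  have hpK := node_sub h1 hp
  have hd : Disjoint K'ᶜ K := by
    rw [Finset.disjoint_left]
    intro a ha haK
    rw [Finset.mem_compl] at ha
    exact ha (hK haK)
  have hsub : k ⊆ cl G K'ᶜ p := fun w hw => mem_cl.2 (node_conn h1 hp hw hd)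
  exact ⟨cl G K'ᶜ p, cl_mem_nodes (hK hpK), hsub, mem_Nb.2 ⟨hu, p, self_mem_cl, hpu⟩,
      mem_Nb.2 ⟨hv, q, hsub hq, hqv⟩⟩

/-- a node of `K + o` which touches `u` and `v` -/
theorem Ap.split {K : Finset V} {o u v : V} (hoK : o ∉ K) (hu : u ∉ K) (hv : v ∉ K)
    (h : Ap G (insert o K) u v) : Ap G K u v ∨ (Ap G K u o ∧ Ap G K v o) := by
  rcases h with h | ⟨k, h1, h2, h3⟩
  · exact Or.inl (Or.inl h)
  obtain ⟨_, p, hp, hpu⟩ := mem_Nb.1 h2
  obtain ⟨_, q, hq, hqv⟩ := mem_Nb.1 h3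
  have hpq : Cn G (Kᶜ.erase o) p q := by
    rw [← compl_insert_erase, ← mem_cl, ← node_eq h1 hp]; exact hq
  have ho : o ∈ Kᶜ := by simpa using hoK
  have side : ∀ {p q u v : V}, p ∈ insert o K → q ∈ insert o K → u ∉ K → v ∉ K →
      G.Adj p u → G.Adj q v → Cn G (Kᶜ.erase o) p q → Ap G K u v ∨ Ap G K u o := by
    intro p q u v hp hq hu hv hpu hqv hpq
    by_cases hpo : p = o
    · right; left; rw [← hpo]; exact hpu.symm
    · have hpK : p ∈ K := by
        rcases Finset.mem_insert.1 hp with h | h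
        · exact absurd h hpo
        · exact h
      have hpc : p ∉ Kᶜ := by simpa using hpK
      rcases Pool.Agent.N800.AG.split hpc hpq ho with ⟨_, h⟩ | ⟨s, hs, hso, h⟩
      · left; right
        exact ⟨cl G Kᶜ p, cl_mem_nodes hpK, mem_Nb.2 ⟨hu, p, self_mem_cl, hpu⟩,
          mem_Nb.2 ⟨hv, q, mem_cl.2 h, hqv⟩⟩
      · right; right
        exact ⟨cl G Kᶜ p, cl_mem_nodes hpK, mem_Nb.2 ⟨hu, p, self_mem_cl, hpu⟩,
          mem_Nb.2 ⟨hoK, s, mem_cl.2 h, hso⟩⟩
  have hp' := node_sub h1 hp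
  have hq' := node_sub h1 hq
  rcases side hp' hq' hu hv hpu hqv hpq with h | h
  · exact Or.inl h
  · rcases side hq' hp' hv hu hqv hpu hpq.symm with h' | h'
    · exact Or.inl h'.symm
    · exact Or.inr ⟨h, h'⟩

end Pool.Agent.N800.AG
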