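import Pool.Agent.N800.AG.B

/-!
# The forbidden pattern and its private nodes (helper file for MP_12e671_al)
-/

set_option autoImplicit false
set_option linter.unusedSectionVars false

open Finset
open scoped Classical

namespace Pool.Agent.N800.AG

variable {V : Type*} [Fintype V] {G : SimpleGraph V}

/-- the pattern: a four-cycle `x b y z` modulo `K`, with nodes on `xz` and on `yz` -/
structure Pat (G : SimpleGraph V) (K : Finset V) (x b y z : V) : Prop where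
  xK : x ∉ K
  bK : b ∉ K
  yK : y ∉ K
  zK : z ∉ K
  nxy : ¬ Ap G K x y
  nbz : ¬ Ap G K b z
  xb : Ap G K x b
  yb : Ap G K y b
  a : ∃ k ∈ nodes G K, x ∈ Nb G K k ∧ z ∈ Nb G K k
  c : ∃ k ∈ nodes G K, y ∈ Nb G K k ∧ z ∈ Nb G K k

variable {K : Finset V} {x b y z : V}

theorem Pat.symm (h : Pat G K x b y z) : Pat G K y b x z :=
  ⟨h.yK, h.bK, h.xK, h.zK, fun h' => h.nxy h'.symm, h.nbz, h.yb, h.xb, h.c, h.a⟩

theorem Pat.xz (h : Pat G K x b y z) : Ap G K x z := by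
  obtain ⟨k, h1, h2, h3⟩ := h.a
  exact Or.inr ⟨k, h1, h2, h3⟩

theorem Pat.yz (h : Pat G K x b y z) : Ap G K y z := h.symm.xz

theorem Pat.x_ne_b (h : Pat G K x b y z) : x ≠ b := by
  rintro rfl
  exact h.nbz h.xz

theorem Pat.y_ne_b (h : Pat G K x b y z) : y ≠ b := h.symm.x_ne_b

theorem Pat.z_ne_b (h : Pat G K x b y z) : z ≠ b := by
  rintro rfl
  obtain ⟨k, h1, _, h3⟩ := h.a
  exact h.nbz (Or.inr ⟨k, h1, h3, h3⟩)

theorem Pat.x_ne_y (h : Pat G K x b y z) : x ≠ y := by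
  rintro rfl
  obtain ⟨k, h1, h2, _⟩ := h.a
  exact h.nxy (Or.inr ⟨k, h1, h2, h2⟩)

theorem Pat.x_ne_z (h : Pat G K x b y z) : x ≠ z := by
  rintro rfl
  exact h.nbz h.xb.symm

theorem Pat.y_ne_z (h : Pat G K x b y z) : y ≠ z := h.symm.x_ne_z

/-- `K` is as large as possible -/
def KMax (G : SimpleGraph V) (K : Finset V) : Prop :=
  ∀ (K' : Finset V) (x b y z : V), Pat G K' x b y z → K'.card ≤ K.card

theorem types (hmax : KMax G K) (h : Pat G K x b y z) {o : V} (hoK : o ∉ K) (hox : o ≠ x)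
    (hob : o ≠ b) (hoy : o ≠ y) (hoz : o ≠ z) :
    (Ap G K o x ∧ Ap G K o y) ∨ (Ap G K o b ∧ Ap G K o z) := by
  by_contra hno
  push Not at hno
  have hsub : K ⊆ insert o K := Finset.subset_insert _ _
  have hx : x ∉ insert o K := by
    rw [Finset.mem_insert]; rintro (h1 | h1)
    · exact hox h1.symm
    · exact h.xK h1
  have hb : b ∉ insert o K := by
    rw [Finset.mem_insert]; rintro (h1 | h1)
    · exact hob h1.symm
    · exact h.bK h1
  have hy : y ∉ insert o K := by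
    rw [Finset.mem_insert]; rintro (h1 | h1)
    · exact hoy h1.symm
    · exact h.yK h1
  have hz : z ∉ insert o K := by
    rw [Finset.mem_insert]; rintro (h1 | h1)
    · exact hoz h1.symm
    · exact h.zK h1
  have hP : Pat G (insert o K) x b y z := by
    refine ⟨hx, hb, hy, hz, ?_, ?_, h.xb.mono hsub hx hb, h.yb.mono hsub hy hb, ?_, ?_⟩
    · intro h'
      rcases h'.split hoK h.xK h.yK with h1 | ⟨h1, h2⟩
      · exact h.nxy h1
      · exact hno.1 h1.symm h2.symm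
    · intro h'
      rcases h'.split hoK h.bK h.zK with h1 | ⟨h1, h2⟩
      · exact h.nbz h1
      · exact hno.2 h1.symm h2.symm
    · obtain ⟨k, h1, h2, h3⟩ := h.a
      obtain ⟨k', h4, _, h5, h6⟩ := node_mono hsub hx hz h1 h2 h3
      exact ⟨k', h4, h5, h6⟩
    · obtain ⟨k, h1, h2, h3⟩ := h.c
      obtain ⟨k', h4, _, h5, h6⟩ := node_mono hsub hy hz h1 h2 h3
      exact ⟨k', h4, h5, h6⟩
  have := hmax _ _ _ _ _ hP
  rw [Finset.card_insert_of_notMem hoK] at this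
  omega

/-- no node touches the three vertices -/
def NoTri (G : SimpleGraph V) (K : Finset V) (x y z : V) : Prop :=
  ∀ k ∈ nodes G K, ¬ (x ∈ Nb G K k ∧ y ∈ Nb G K k ∧ z ∈ Nb G K k)

theorem tri_side {K : Finset V} {v : V} (hv : v ∉ K) {p q r x y z : V} (hp : p ∈ insert v K)
    (hx : x ∉ K) (hy : y ∉ K) (hz : z ∉ K)
    (hpx : G.Adj p x) (hqy : G.Adj q y) (hrz : G.Adj r z)
    (hpq : Cn G (Kᶜ.erase v) p q) (hpr : Cn G (Kᶜ.erase v) p r) (hN : NoTri G K x y z) :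
    Ap G K v x := by
  have hvc : v ∈ Kᶜ := by simpa using hv
  by_cases hpv : p = v
  · left; rw [← hpv]; exact hpx
  · have hpK : p ∈ K := by
      rcases Finset.mem_insert.1 hp with h | h
      · exact absurd h hpv
      · exact h
    have hpc : p ∉ Kᶜ := by simpa using hpK
    have main : ∀ s, s ∉ Kᶜ → G.Adj s v → Cn G Kᶜ p s → Ap G K v x := by
      intro s _ hsv hps
      right
      exact ⟨cl G Kᶜ p, cl_mem_nodes hpK, mem_Nb.2 ⟨hv, s, mem_cl.2 hps, hsv⟩,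
        mem_Nb.2 ⟨hx, p, self_mem_cl, hpx⟩⟩
    rcases Pool.Agent.N800.AG.split hpc hpq hvc with ⟨_, h1⟩ | ⟨s, hs, hsv, h1⟩
    · rcases Pool.Agent.N800.AG.split hpc hpr hvc with ⟨_, h2⟩ | ⟨s, hs, hsv, h2⟩
      · exfalso
        exact hN _ (cl_mem_nodes hpK) ⟨mem_Nb.2 ⟨hx, p, self_mem_cl, hpx⟩,
          mem_Nb.2 ⟨hy, q, mem_cl.2 h1, hqy⟩, mem_Nb.2 ⟨hz, r, mem_cl.2 h2, hrz⟩⟩
      · exact main s hs hsv h2
    · exact main s hs hsv h1

theorem tri_all {K : Finset V} {v : V} (hv : v ∉ K) {x y z : V}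
    (hx : x ∉ K) (hy : y ∉ K) (hz : z ∉ K) (hN : NoTri G K x y z)
    (hT : ¬ NoTri G (insert v K) x y z) : Ap G K v x ∧ Ap G K v y ∧ Ap G K v z := by
  unfold NoTri at hT
  push Not at hT
  obtain ⟨k, hk, h1, h2, h3⟩ := hT
  obtain ⟨_, p, hp, hpx⟩ := mem_Nb.1 h1
  obtain ⟨_, q, hq, hqy⟩ := mem_Nb.1 h2
  obtain ⟨_, r, hr, hrz⟩ := mem_Nb.1 h3
  have conn : ∀ {p q : V}, p ∈ k → q ∈ k → Cn G (Kᶜ.erase v) p q := by
    intro p q hp hq
    rw [← compl_insert_erase, ← mem_cl, ← node_eq hk hp]; exact hq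
  refine ⟨?_, ?_, ?_⟩
  · exact tri_side hv (node_sub hk hp) hx hy hz hpx hqy hrz (conn hp hq) (conn hp hr) hN
  · exact tri_side hv (node_sub hk hq) hy hx hz hqy hpx hrz (conn hq hp) (conn hq hr)
      (fun k hk h => hN k hk ⟨h.2.1, h.1, h.2.2⟩)
  · exact tri_side hv (node_sub hk hr) hz hx hy hrz hpx hqy (conn hr hp) (conn hr hq)
      (fun k hk h => hN k hk ⟨h.2.1, h.2.2, h.1⟩)

theorem noTri_insert (h : Pat G K x b y z) : NoTri G (insert b K) x y z := by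
  intro k hk ⟨h1, h2, h3⟩
  obtain ⟨_, p, hp, hpx⟩ := mem_Nb.1 h1
  obtain ⟨_, q, hq, hqy⟩ := mem_Nb.1 h2
  obtain ⟨_, r, hr, hrz⟩ := mem_Nb.1 h3
  have conn : ∀ {p q : V}, p ∈ k → q ∈ k → Cn G (Kᶜ.erase b) p q := by
    intro p q hp hq
    rw [← compl_insert_erase, ← mem_cl, ← node_eq hk hp]; exact hq
  have hbc : b ∈ Kᶜ := by simpa using h.bK
  have hrb : r ≠ b := by
    rintro rfl
    exact h.nbz (Or.inl hrz)
  have hrK : r ∈ K := by
    rcases Finset.mem_insert.1 (node_sub hk hr) with h' | h'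
    · exact absurd h' hrb
    · exact h'
  have hrc : r ∉ Kᶜ := by simpa using hrK
  have main : ∀ s, s ∉ Kᶜ → G.Adj s b → Cn G Kᶜ r s → False := by
    intro s _ hsb hrs
    exact h.nbz (Or.inr ⟨cl G Kᶜ r, cl_mem_nodes hrK, mem_Nb.2 ⟨h.bK, s, mem_cl.2 hrs, hsb⟩,
      mem_Nb.2 ⟨h.zK, r, self_mem_cl, hrz⟩⟩)
  rcases Pool.Agent.N800.AG.split hrc (conn hr hp) hbc with ⟨_, e1⟩ | ⟨s, hs, hsb, e1⟩
  · rcases Pool.Agent.N800.AG.split hrc (conn hr hq) hbc with ⟨_, e2⟩ | ⟨s, hs, hsb, e2⟩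
    · exact h.nxy (Or.inr ⟨cl G Kᶜ r, cl_mem_nodes hrK, mem_Nb.2 ⟨h.xK, p, mem_cl.2 e1, hpx⟩,
        mem_Nb.2 ⟨h.yK, q, mem_cl.2 e2, hqy⟩⟩)
    · exact main s hs hsb e2
  · exact main s hs hsb e1

/-- `x` has a private node -/
theorem priv (hU : Unm G) (hmax : KMax G K) (h : Pat G K x b y z) :
    ∃ k ∈ nodes G K, x ∈ Nb G K k ∧ y ∉ Nb G K k ∧ z ∉ Nb G K k ∧ b ∉ Nb G K k := by
  -- the maximal kept set
  obtain ⟨K', hK', hK'max⟩ := Finset.exists_max_image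
    ((univ : Finset (Finset V)).filter (fun K' => insert b K ⊆ K' ∧ x ∉ K' ∧ y ∉ K' ∧ z ∉ K' ∧
      NoTri G K' x y z)) Finset.card
    ⟨insert b K, by
      refine Finset.mem_filter.2 ⟨Finset.mem_univ _, Finset.Subset.refl _, ?_, ?_, ?_,
        noTri_insert h⟩
      · rw [Finset.mem_insert]; rintro (h1 | h1)
        · exact h.x_ne_b h1
        · exact h.xK h1
      · rw [Finset.mem_insert]; rintro (h1 | h1)
        · exact h.y_ne_b h1
        · exact h.yK h1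
      · rw [Finset.mem_insert]; rintro (h1 | h1)
        · exact h.z_ne_b h1
        · exact h.zK h1⟩
  obtain ⟨_, hins, hx, hy, hz, hN⟩ := Finset.mem_filter.1 hK'
  have hbK' : b ∈ K' := hins (Finset.mem_insert_self _ _)
  have hKK' : K ⊆ K' := fun v hv => hins (Finset.mem_insert_of_mem hv)
  have hd : Disjoint K'ᶜ K := by
    rw [Finset.disjoint_left]
    intro a ha haK
    rw [Finset.mem_compl] at ha
    exact ha (hKK' haK)
  have hbc : b ∉ K'ᶜ := by simpa using hbK'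
  have htri : ∀ v, v ∉ K' → v ≠ x → v ≠ y → v ≠ z →
      Ap G K' v x ∧ Ap G K' v y ∧ Ap G K' v z := by
    intro v hv hvx hvy hvz
    refine tri_all hv hx hy hz hN ?_
    intro hN'
    have := hK'max (insert v K') (Finset.mem_filter.2 ⟨Finset.mem_univ _,
      hins.trans (Finset.subset_insert _ _), ?_, ?_, ?_, hN'⟩)
    · rw [Finset.card_insert_of_notMem hv] at this
      omega
    · rw [Finset.mem_insert]; rintro (h1 | h1)
      · exact hvx h1.symm
      · exact hx h1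
    · rw [Finset.mem_insert]; rintro (h1 | h1)
      · exact hvy h1.symm
      · exact hy h1
    · rw [Finset.mem_insert]; rintro (h1 | h1)
      · exact hvz h1.symm
      · exact hz h1
  obtain ⟨a0, ha0, ha1, ha2⟩ := h.a
  obtain ⟨a, ha, _, hax, haz⟩ := node_mono hKK' hx hz ha0 ha1 ha2
  obtain ⟨c0, hc0, hc1, hc2⟩ := h.c
  obtain ⟨c, hc, _, hcy, hcz⟩ := node_mono hKK' hy hz hc0 hc1 hc2
  have hB : cl G K'ᶜ b ∈ nodes G K' := cl_mem_nodes hbK'
  have toB : ∀ v w, v ∉ K' → w ∉ K'ᶜ → Ap G K v w → v ∈ Nb G K' (cl G K'ᶜ w) := by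
    intro v w hv hw hvw
    obtain ⟨u, h1, _, h3⟩ := hvw.reach hd hw
    exact mem_Nb.2 ⟨hv, u, mem_cl.2 h3.symm, h1.symm⟩
  have hbx : x ∈ Nb G K' (cl G K'ᶜ b) := toB x b hx hbc h.xb
  have hby : y ∈ Nb G K' (cl G K'ᶜ b) := toB y b hy hbc h.yb
  obtain ⟨k, hk, hkx, hky, hkz⟩ := sun (G := G) (K := K') hU hy hz ha hB hc hax
    (fun h' => hN a ha ⟨hax, h', haz⟩) hbx (fun h' => hN _ hB ⟨hbx, hby, h'⟩) hcy hcz
    (by
      intro v hv hvy
      by_cases hvx : v = x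
      · subst hvx; exact Or.inr ⟨_, hB, hbx, hby⟩
      · by_cases hvz : v = z
        · subst hvz; exact Or.inr ⟨_, hc, hcz, hcy⟩
        · exact (htri v hv hvx hvy hvz).2.1)
    (by
      intro v hv hvz
      by_cases hvx : v = x
      · subst hvx; exact Or.inr ⟨_, ha, hax, haz⟩
      · by_cases hvy : v = y
        · subst hvy; exact Or.inr ⟨_, hc, hcy, hcz⟩
        · exact (htri v hv hvx hvy hvz).2.2)
  -- `k` lies in `K`
  have hkK : ∀ w ∈ k, w ∈ K := by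
    intro w hw
    have hwK' := node_sub hk hw
    by_contra hwK
    have hkw := node_eq hk hw
    have hwc : w ∉ K'ᶜ := by simpa using hwK'
    by_cases hwb : w = b
    · subst hwb
      exact hky (hkw ▸ hby)
    · rcases types hmax h hwK (fun e => hx (e ▸ hwK')) hwb (fun e => hy (e ▸ hwK'))
        (fun e => hz (e ▸ hwK')) with ⟨_, h2⟩ | ⟨_, h2⟩
      · exact hky (hkw ▸ toB y w hy hwc h2.symm)
      · exact hkz (hkw ▸ toB z w hz hwc h2.symm)
  obtain ⟨_, p, hp, hpx⟩ := mem_Nb.1 hkx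
  have hpK := hkK p hp
  have hpc : p ∉ Kᶜ := by simpa using hpK
  have hkp := node_eq hk hp
  have hkeq : cl G Kᶜ p = k := by
    ext w
    constructor
    · intro hw
      rw [hkp]
      exact mem_cl.2 ((mem_cl.1 hw).mono (by
        intro v hv
        rw [Finset.mem_compl] at hv ⊢
        exact fun h' => hv (hKK' h')))
    · intro hw
      rw [hkp] at hw
      have hw' := mem_cl.1 hw
      rw [mem_cl]
      clear hw
      induction hw' with
      | refl => exact Cn.rfl'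
      | @tail s t hs hst ih =>
        have h1 : s ∈ K := hkK s (hkp ▸ mem_cl.2 hs)
        have h2 : t ∈ K := hkK t (hkp ▸ mem_cl.2 (Cn.step (show Cn G K'ᶜ p s from hs) hst.1 hst.2.1 hst.2.2))
        exact ih.step hst.1 (by simpa using h1) (by simpa using h2)
  refine ⟨k, hkeq ▸ cl_mem_nodes hpK, mem_Nb.2 ⟨h.xK, p, hp, hpx⟩, ?_, ?_, ?_⟩
  · intro h'
    obtain ⟨_, s, hs, hsy⟩ := mem_Nb.1 h'
    exact hky (mem_Nb.2 ⟨hy, s, hs, hsy⟩)
  · intro h'
    obtain ⟨_, s, hs, hsz⟩ := mem_Nb.1 h'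
    exact hkz (mem_Nb.2 ⟨hz, s, hs, hsz⟩)
  · intro h'
    obtain ⟨_, s, hs, hsb⟩ := mem_Nb.1 h'
    have hsc : s ∉ K'ᶜ := by simpa using node_sub hk hs
    have : b ∈ k := by
      rw [node_eq hk hs]
      exact mem_cl.2 (Cn.one hsb hsc hbc)
    exact h.bK (hkK b this)

end Pool.Agent.N800.AG
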