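import Pool.Agent.N800.AG.C

/-!
# No pattern in an accessible graph (helper file for MP_12e671_al)
-/

set_option autoImplicit false
set_option linter.unusedSectionVars false

open Finset
open scoped Classical

namespace Pool.Agent.N800.AG

variable {V : Type*} [Fintype V] {G : SimpleGraph V}
variable {K : Finset V} {x b y z : V}

/-- counting in the pattern, `b` and `y` outside -/
theorem countPat (hU : Unm G) (hmax : KMax G K) (h : Pat G K x b y z)
    {A : Finset (Finset V)} (hA : A ⊆ nodes G K) (hb : b ∉ NB G K A) (hy : y ∉ NB G K A) :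
    (NB G K A).card + cc G ∅ = (iso G K (NB G K A)).card + 1 := by
  refine count hU hA h.bK hb ?_
  have hyb : Cn G (NB G K A) y b := h.yb.cn NB_disj hy hb
  have viaY : ∀ v, Ap G K v y → ∃ w, G.Adj v w ∧ w ∉ NB G K A ∧ Cn G (NB G K A) w b := by
    intro v hv
    obtain ⟨w, h1, h2, h3⟩ := hv.reach NB_disj hy
    exact ⟨w, h1, h2, h3.trans hyb⟩
  intro v hvK hvb
  by_cases hvx : v = x
  · subst hvx; exact h.xb.reach NB_disj hb
  · by_cases hvy : v = y
    · subst hvy; exact h.yb.reach NB_disj hb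
    · by_cases hvz : v = z
      · subst hvz; exact viaY _ h.yz.symm
      · rcases types hmax h hvK hvx hvb hvy hvz with ⟨_, h1⟩ | ⟨h1, _⟩
        · exact viaY _ h1
        · exact h1.reach NB_disj hb

/-- a path from a node to a vertex outside `K` leaves the node -/
theorem exit {K T : Finset V} {k : Finset V} (hk : k ∈ nodes G K) {s w : V} (hs : s ∈ k)
    (hw : w ∉ K) (h : Cn G T s w) : ∃ u ∈ Nb G K k, Cn G T s u := by
  have claim : ∀ w, Cn G T s w → w ∈ k ∨ ∃ u ∈ Nb G K k, Cn G T s u := by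
    intro w h
    induction h with
    | refl => exact Or.inl hs
    | @tail p q hp hpq ih =>
      rcases ih with h1 | h1
      · by_cases hq : q ∈ K
        · left
          have hpK := node_sub hk h1
          rw [node_eq hk h1]
          exact mem_cl.2 (Cn.one hpq.1 (by simpa using hpK) (by simpa using hq))
        · right
          exact ⟨q, mem_Nb.2 ⟨hq, p, h1, hpq.1⟩, Relation.ReflTransGen.tail hp hpq⟩
      · exact Or.inr h1
  rcases claim w h with h1 | h1
  · exact absurd (node_sub hk h1) hw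
  · exact h1

/-- the situation at a minimal separator -/
structure Sep (G : SimpleGraph V) (K : Finset V) (x y : V) (T : Finset V) (t : V) : Prop where
  disj : Disjoint T K
  xT : x ∉ T
  yT : y ∉ T
  sep : ¬ Cn G T x y
  tT : t ∈ T
  tAdj : ∀ w, w ∉ T → G.Adj w t → Cn G T x w ∨ Cn G T y w
  card : cc G T = T.card + cc G ∅

theorem Sep.symm {T : Finset V} {t : V} (h : Sep G K x y T t) : Sep G K y x T t :=
  ⟨h.disj, h.yT, h.xT, fun h' => h.sep h'.symm, h.tT, fun w h1 h2 => (h.tAdj w h1 h2).symm,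
    h.card⟩

theorem Sep.bT {T : Finset V} {t : V} (hS : Sep G K x y T t) (h : Pat G K x b y z) : b ∈ T := by
  by_contra hb
  exact hS.sep ((h.xb.cn hS.disj hS.xT hb).trans (h.yb.cn hS.disj hS.yT hb).symm)

theorem Sep.zT {T : Finset V} {t : V} (hS : Sep G K x y T t) (h : Pat G K x b y z) : z ∈ T := by
  by_contra hb
  exact hS.sep ((h.xz.cn hS.disj hS.xT hb).trans (h.yz.cn hS.disj hS.yT hb).symm)

/-- one side of the separator -/
theorem sideNode (hU : Unm G) (hmax : KMax G K) (h : Pat G K x b y z) {T : Finset V} {t : V}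
    (hS : Sep G K x y T t) :
    ∃ k ∈ nodes G K, b ∉ Nb G K k ∧ t ∈ Nb G K k ∧ ∃ s ∈ k, Cn G T x s := by
  set X := cl G T x with hX
  have hXT : ∀ v ∈ X, v ∉ T := fun v hv => (mem_cl.1 hv).notMem hS.xT
  have hXclosed : ∀ v ∈ X, ∀ w, G.Adj v w → w ∉ T → w ∈ X := by
    intro v hv w hvw hw
    exact mem_cl.2 ((mem_cl.1 hv).step hvw (hXT v hv) hw)
  have hKT : ∀ v ∈ K, v ∉ T := fun v hv hvT => Finset.disjoint_left.1 hS.disj hvT hv
  -- nodes meeting `X` lie in `X`
  have hnodeX : ∀ k ∈ nodes G K, ∀ u ∈ k, u ∈ X → ∀ w ∈ k, w ∈ X := by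
    intro k hk u hu huX w hw
    exact mem_cl.2 ((mem_cl.1 huX).trans (node_conn hk hu hw hS.disj))
  set A5 := AS G K ({b} ∪ ({y} ∪ {z})) with hA5
  have hbS : b ∈ ({b} ∪ ({y} ∪ {z}) : Finset V) := by simp
  have hyS : y ∈ ({b} ∪ ({y} ∪ {z}) : Finset V) := by simp
  have hzS : z ∈ ({b} ∪ ({y} ∪ {z}) : Finset V) := by simp
  have hA5s : A5 ⊆ nodes G K := AS_sub
  set T5 := NB G K A5 with hT5
  have hb5 : b ∉ T5 := notMem_NB_AS hbS
  have hy5 : y ∉ T5 := notMem_NB_AS hyS
  have hc5 : T5.card + cc G ∅ = A5.card + 1 := by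
    have := countPat hU hmax h hA5s hb5 hy5
    rw [iso_AS] at this
    exact this
  have hT5K : Disjoint T5 K := NB_disj
  -- lower bound for the part outside `X`
  have hlow : (A5.filter (fun k => Disjoint k X)).card + 1 ≤ (T5 \ X).card + cc G ∅ := by
    refine (lower (G := G) (K := K) (T := T5 \ X)
      (Finset.disjoint_of_subset_left Finset.sdiff_subset hT5K)
      ((Finset.filter_subset _ _).trans hA5s) ?_ (p := b) ?_ ?_).trans (hU.bound _)
    · intro k hk v hv
      obtain ⟨hk5, hkX⟩ := Finset.mem_filter.1 hk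
      refine Finset.mem_sdiff.2 ⟨Nb_sub_NB hk5 hv, ?_⟩
      intro hvX
      obtain ⟨_, u, hu, huv⟩ := mem_Nb.1 hv
      have huT := hKT u (node_sub (hA5s hk5) hu)
      exact Finset.disjoint_left.1 hkX hu (hXclosed v hvX u huv.symm huT)
    · intro h'
      exact hb5 (Finset.mem_sdiff.1 h').1
    · intro k hk hbk
      exact h.bK (node_sub (hA5s (Finset.mem_filter.1 hk).1) hbk)
  have hpart1 : (A5.filter (fun k => Disjoint k X)).card +
      (A5.filter (fun k => ¬ Disjoint k X)).card = A5.card :=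
    Finset.card_filter_add_card_filter_not _
  have hpart2 : (T5 \ X).card + (T5 ∩ X).card = T5.card := Finset.card_sdiff_add_card_inter _ _
  set B5 := A5.filter (fun k => ¬ Disjoint k X) with hB5
  have hB5c : (T5 ∩ X).card ≤ B5.card := by omega
  set T6 := T ∪ (T5 ∩ X) with hT6
  have hT6K : Disjoint T6 K := by
    rw [hT6, Finset.disjoint_union_left]
    exact ⟨hS.disj, Finset.disjoint_of_subset_left Finset.inter_subset_left hT5K⟩
  have hT6c : T6.card = T.card + (T5 ∩ X).card := by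
    rw [hT6, Finset.card_union_of_disjoint]
    rw [Finset.disjoint_left]
    intro v hv hv'
    exact hXT v (Finset.mem_inter.1 hv').2 hv
  obtain ⟨α, hα, hαx, hαz⟩ := h.a
  have hαX : ∀ w ∈ α, w ∈ X := by
    obtain ⟨_, p, hp, hpx⟩ := mem_Nb.1 hαx
    exact hnodeX α hα p hp (hXclosed x self_mem_cl p hpx.symm (hKT p (node_sub hα hp)))
  -- classes away from `X` are not changed
  have hkeep : ∀ v w, v ∉ T → v ∉ X → Cn G T v w → Cn G T6 v w := by
    intro v w hv hvX hvw
    have hnot : ∀ s, Cn G T v s → s ∉ T6 := by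
      intro s hs h'
      rcases Finset.mem_union.1 h' with h1 | h1
      · exact hs.notMem hv h1
      · exact hvX (mem_cl.2 ((mem_cl.1 (Finset.mem_inter.1 h1).2).trans hs.symm))
    induction hvw with
    | refl => exact Cn.rfl'
    | @tail s s' hs hss ih =>
      exact ih.step hss.1 (hnot s hs) (hnot s' (Relation.ReflTransGen.tail hs hss))
  have hTT6 : T ⊆ T6 := Finset.subset_union_left
  have hi : ∀ D ∈ (comps G T).erase X, D ∈ comps G T6 := by
    intro D hD
    obtain ⟨hDX, hD⟩ := Finset.mem_erase.1 hD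
    obtain ⟨v, hv, rfl⟩ := mem_comps.1 hD
    have hvX : v ∉ X := by
      intro h'
      exact hDX (cl_eq_iff.2 (mem_cl.1 h').symm)
    have hv6 : v ∉ T6 := by
      intro h'
      rcases Finset.mem_union.1 h' with h1 | h1
      · exact hv h1
      · exact hvX (Finset.mem_inter.1 h1).2
    refine mem_comps.2 ⟨v, hv6, ?_⟩
    ext w
    rw [mem_cl, mem_cl]
    exact ⟨fun h' => h'.mono hTT6, fun h' => hkeep v w hv hvX h'⟩
  have hii : ∀ k ∈ B5, k ∈ comps G T6 := by
    intro k hk
    obtain ⟨hk5, hkX⟩ := Finset.mem_filter.1 hk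
    rw [Finset.not_disjoint_iff] at hkX
    obtain ⟨u, huk, huX⟩ := hkX
    refine node_mem_comps hT6K (hA5s hk5) ?_
    intro v hv
    by_cases hvT : v ∈ T
    · exact hTT6 hvT
    · obtain ⟨_, s, hs, hsv⟩ := mem_Nb.1 hv
      have hsX := hnodeX k (hA5s hk5) u huk huX s hs
      exact Finset.mem_union_right _ (Finset.mem_inter.2 ⟨Nb_sub_NB hk5 hv,
        hXclosed s hsX v hsv hvT⟩)
  have hbα : b ∉ Nb G K α := fun h' => h.nbz (Or.inr ⟨α, hα, h', hαz⟩)
  have hiii : α ∈ comps G T6 := by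
    refine node_mem_comps hT6K hα ?_
    intro v hv
    by_cases hvT : v ∈ T
    · exact hTT6 hvT
    · obtain ⟨hvK, s, hs, hsv⟩ := mem_Nb.1 hv
      have hvX := hXclosed s (hαX s hs) v hsv hvT
      refine Finset.mem_union_right _ (Finset.mem_inter.2 ⟨?_, hvX⟩)
      have hvy : ¬ Ap G K v y := fun h' =>
        hS.sep ((mem_cl.1 hvX).trans (h'.cn hS.disj hvT hS.yT))
      have hvb : Ap G K v b := by
        by_cases hvx : v = x
        · subst hvx; exact h.xb
        · rcases types hmax h hvK hvx (fun e => hvT (e ▸ hS.bT h))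
            (fun e => hS.sep (e ▸ mem_cl.1 hvX)) (fun e => hvT (e ▸ hS.zT h)) with h1 | h1
          · exact absurd h1.2 hvy
          · exact h1.1
      have hP : Pat G K v b y z := ⟨hvK, h.bK, h.yK, h.zK, hvy, h.nbz, hvb, h.yb,
        ⟨α, hα, hv, hαz⟩, h.c⟩
      obtain ⟨k, hk, h1, h2, h3, h4⟩ := priv hU hmax hP
      refine mem_NB.2 ⟨k, mem_AS.2 ⟨hk, ?_⟩, h1⟩
      intro s hs
      simp only [Finset.mem_union, Finset.mem_singleton] at hs
      rcases hs with rfl | rfl | rfl
      · exact h4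
      · exact h2
      · exact h3
  have hα5 : α ∉ B5 := by
    intro h'
    exact (mem_AS.1 (Finset.mem_filter.1 h').1).2 z hzS hαz
  have hXc : X ∈ comps G T := cl_mem_comps hS.xT
  set S := (comps G T).erase X ∪ insert α B5 with hSdef
  have hSdisj : Disjoint ((comps G T).erase X) (insert α B5) := by
    rw [Finset.disjoint_left]
    intro D hD hD'
    obtain ⟨hDX, hDc⟩ := Finset.mem_erase.1 hD
    have : ∃ u ∈ D, u ∈ X := by
      rcases Finset.mem_insert.1 hD' with rfl | h1
      · obtain ⟨p, hp⟩ := node_nonempty hα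
        exact ⟨p, hp, hαX p hp⟩
      · exact Finset.not_disjoint_iff.1 (Finset.mem_filter.1 h1).2
    obtain ⟨u, hu, huX⟩ := this
    apply hDX
    rw [eq_cl_of_mem hDc hu]
    exact cl_eq_iff.2 (mem_cl.1 huX).symm
  have hSc : S.card = (cc G T - 1) + (B5.card + 1) := by
    rw [hSdef, Finset.card_union_of_disjoint hSdisj, Finset.card_erase_of_mem hXc,
      Finset.card_insert_of_notMem hα5]
    rfl
  have hSsub : S ⊆ comps G T6 := by
    intro D hD
    rcases Finset.mem_union.1 hD with h1 | h1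
    · exact hi D h1
    · rcases Finset.mem_insert.1 h1 with rfl | h2
      · exact hiii
      · exact hii D h2
  have hccT : 0 < cc G T := Finset.card_pos.2 ⟨X, hXc⟩
  have hb6 := hU.bound T6
  have hle : S.card ≤ cc G T6 := Finset.card_le_card hSsub
  have hcardT := hS.card
  have hSeq : S = comps G T6 := by
    refine Finset.eq_of_subset_of_card_le hSsub ?_
    change cc G T6 ≤ S.card
    omega
  have hval : Valid G T6 := hU.valid_of_eq (by omega)
  obtain ⟨u, v, hu, hv, hut, hvt, huv⟩ := hval.two (hTT6 hS.tT)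
  have huT : u ∉ T := fun h' => hu (hTT6 h')
  have hvT : v ∉ T := fun h' => hv (hTT6 h')
  have hyX : y ∉ X := fun h' => hS.sep (mem_cl.1 h')
  -- a neighbour of `t` in `X` gives the node
  have fin : ∀ u, u ∉ T6 → G.Adj u t → Cn G T x u →
      ∃ k ∈ nodes G K, b ∉ Nb G K k ∧ t ∈ Nb G K k ∧ ∃ s ∈ k, Cn G T x s := by
    intro u hu hut hxu
    have htK : t ∉ K := Finset.disjoint_left.1 hS.disj hS.tT
    have hmem : cl G T6 u ∈ S := hSeq ▸ cl_mem_comps hu
    rcases Finset.mem_union.1 hmem with h1 | h1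
    · exfalso
      obtain ⟨h2, h3⟩ := Finset.mem_erase.1 h1
      apply h2
      rw [eq_cl_of_mem h3 (self_mem_cl : u ∈ cl G T6 u)]
      exact cl_eq_iff.2 hxu.symm
    · rcases Finset.mem_insert.1 h1 with h2 | h2
      · have huα : u ∈ α := h2 ▸ (self_mem_cl : u ∈ cl G T6 u)
        exact ⟨α, hα, hbα, mem_Nb.2 ⟨htK, u, huα, hut⟩, u, huα, hxu⟩
      · have h5 := (Finset.mem_filter.1 h2).1
        exact ⟨cl G T6 u, hA5s h5, (mem_AS.1 h5).2 b hbS,
          mem_Nb.2 ⟨htK, u, self_mem_cl, hut⟩, u, self_mem_cl, hxu⟩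
  rcases hS.tAdj u huT hut with h1 | h1
  · exact fin u hu hut h1
  · rcases hS.tAdj v hvT hvt with h2 | h2
    · exact fin v hv hvt h2
    · exfalso
      exact huv ((hkeep y u hS.yT hyX h1).symm.trans (hkeep y v hS.yT hyX h2))

/-- the family of nodes which avoid `b` and a closed set -/
noncomputable def AW (G : SimpleGraph V) (K : Finset V) (b : V) (W : Finset V) :
    Finset (Finset V) :=
  (nodes G K).filter (fun k => b ∉ Nb G K k ∧ Disjoint k W)

theorem mem_AW {W : Finset V} {k : Finset V} :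
    k ∈ AW G K b W ↔ k ∈ nodes G K ∧ b ∉ Nb G K k ∧ Disjoint k W := by
  simp [AW]

theorem AW_sub {W : Finset V} : AW G K b W ⊆ nodes G K := Finset.filter_subset _ _

/-- the isolated nodes of `AW` -/
theorem iso_AW {T : Finset V} (hT : Disjoint T K) {W : Finset V}
    (hW : ∀ s ∈ W, s ∉ T ∧ (∃ w, w ∉ K ∧ Cn G T s w) ∧ ∀ s', Cn G T s s' → s' ∈ W) :
    iso G K (NB G K (AW G K b W)) = AW G K b W := by
  ext k
  unfold iso
  rw [Finset.mem_filter]
  constructor
  · rintro ⟨h1, h2⟩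
    refine mem_AW.2 ⟨h1, ?_, ?_⟩
    · intro hb
      obtain ⟨k', hk', hbk'⟩ := mem_NB.1 (h2 hb)
      exact (mem_AW.1 hk').2.1 hbk'
    · rw [Finset.disjoint_left]
      intro s hs hsW
      obtain ⟨hsT, ⟨w, hwK, hsw⟩, hcl⟩ := hW s hsW
      obtain ⟨u, hu, hsu⟩ := exit h1 hs hwK hsw
      obtain ⟨k', hk', huk'⟩ := mem_NB.1 (h2 hu)
      obtain ⟨_, s', hs', hs'u⟩ := mem_Nb.1 huk'
      have hs'T : s' ∉ T := fun h' =>
        Finset.disjoint_left.1 hT h' (node_sub (mem_AW.1 hk').1 hs')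
      have : s' ∈ W := hcl s' (hsu.step hs'u.symm (hsu.notMem hsT) hs'T)
      exact Finset.disjoint_left.1 (mem_AW.1 hk').2.2 hs' this
  · intro h
    exact ⟨(mem_AW.1 h).1, Nb_sub_NB h⟩

theorem AW_inter {W W' : Finset V} : AW G K b W ∩ AW G K b W' = AW G K b (W ∪ W') := by
  ext k
  simp only [Finset.mem_inter, mem_AW, Finset.disjoint_union_right]
  tauto

theorem notMem_NB_AW {W : Finset V} : b ∉ NB G K (AW G K b W) := by
  intro h
  obtain ⟨k', hk', hbk'⟩ := mem_NB.1 h
  exact (mem_AW.1 hk').2.1 hbk'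

theorem notMem_NB_AW' {T : Finset V} (hT : Disjoint T K) {y : V} (hy : y ∉ T) {W : Finset V}
    (hW : cl G T y ⊆ W) : y ∉ NB G K (AW G K b W) := by
  intro h
  obtain ⟨k', hk', hyk'⟩ := mem_NB.1 h
  obtain ⟨_, s, hs, hsy⟩ := mem_Nb.1 hyk'
  have hsT : s ∉ T := fun h' =>
    Finset.disjoint_left.1 hT h' (node_sub (mem_AW.1 hk').1 hs)
  exact Finset.disjoint_left.1 (mem_AW.1 hk').2.2 hs (hW (mem_cl.2 (Cn.one hsy.symm hy hsT)))

theorem closed_cl {T : Finset V} {y : V} (hyK : y ∉ K) (hy : y ∉ T) :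
    ∀ s ∈ cl G T y, s ∉ T ∧ (∃ w, w ∉ K ∧ Cn G T s w) ∧ ∀ s', Cn G T s s' → s' ∈ cl G T y := by
  intro s hs
  have h := mem_cl.1 hs
  exact ⟨h.notMem hy, ⟨y, hyK, h.symm⟩, fun s' hs' => mem_cl.2 (h.trans hs')⟩

/-- there is no pattern with a maximal kept set -/
theorem noPattern (hU : Unm G)
    (hAcc : ∀ T : Finset V, Valid G T → T.Nonempty → ∃ t ∈ T, Valid G (T.erase t))
    (hmax : KMax G K) (h : Pat G K x b y z) : False := by
  -- separators
  have hT0 : ¬ Cn G (insert x (insert y K))ᶜ x y := by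
    intro hc
    have claim : ∀ w, Cn G (insert x (insert y K))ᶜ x w →
        w = x ∨ (w ∈ K ∧ x ∈ Nb G K (cl G Kᶜ w)) ∨ Ap G K x y := by
      intro w hw
      induction hw with
      | refl => exact Or.inl rfl
      | @tail s s' hs hss ih =>
        have hs' : s' = x ∨ s' = y ∨ s' ∈ K := by
          have := hss.2.2
          simp only [Finset.mem_compl, Finset.mem_insert, not_not] at this
          exact this
        rcases ih with rfl | ⟨h1, h2⟩ | h1
        · rcases hs' with rfl | rfl | h2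
          · exact absurd hss.1 (G.loopless.irrefl _)
          · exact Or.inr (Or.inr (Or.inl hss.1))
          · exact Or.inr (Or.inl ⟨h2, mem_Nb.2 ⟨h.xK, s', self_mem_cl, hss.1.symm⟩⟩)
        · rcases hs' with rfl | rfl | h3
          · exact Or.inl rfl
          · exact Or.inr (Or.inr (Or.inr ⟨_, cl_mem_nodes h1, h2,
              mem_Nb.2 ⟨h.yK, s, self_mem_cl, hss.1⟩⟩))
          · refine Or.inr (Or.inl ⟨h3, ?_⟩)
            have : cl G Kᶜ s' = cl G Kᶜ s := cl_eq_iff.2
              (Cn.one hss.1.symm (by simpa using h3) (by simpa using h1))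
            rw [this]; exact h2
        · exact Or.inr (Or.inr h1)
    rcases claim y hc with h1 | ⟨h1, _⟩ | h1
    · exact h.x_ne_y h1.symm
    · exact h.yK h1
    · exact h.nxy h1
  obtain ⟨T, hT, hTmin⟩ := Finset.exists_min_image
    ((univ : Finset (Finset V)).filter (fun T => Disjoint T K ∧ x ∉ T ∧ y ∉ T ∧ ¬ Cn G T x y))
    Finset.card ⟨(insert x (insert y K))ᶜ, by
      refine Finset.mem_filter.2 ⟨Finset.mem_univ _, ?_, by simp, by simp, hT0⟩
      rw [Finset.disjoint_left]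
      intro v hv hvK
      simp only [Finset.mem_compl, Finset.mem_insert, not_or] at hv
      exact hv.2.2 hvK⟩
  obtain ⟨_, hdisj, hxT, hyT, hsep⟩ := Finset.mem_filter.1 hT
  have hcross : ∀ t ∈ T, Cn G (T.erase t) x y := by
    intro t ht
    by_contra hno
    have := hTmin (T.erase t) (Finset.mem_filter.2 ⟨Finset.mem_univ _,
      Finset.disjoint_of_subset_left (Finset.erase_subset _ _) hdisj,
      fun h' => hxT (Finset.mem_of_mem_erase h'), fun h' => hyT (Finset.mem_of_mem_erase h'),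
      hno⟩)
    rw [Finset.card_erase_of_mem ht] at this
    have := Finset.card_pos.2 ⟨t, ht⟩
    omega
  have hside : ∀ t ∈ T, (∃ u, u ∉ T ∧ G.Adj u t ∧ Cn G T x u) ∧
      ∃ v, v ∉ T ∧ G.Adj v t ∧ Cn G T y v := by
    intro t ht
    constructor
    · rcases Pool.Agent.N800.AG.split hxT (hcross t ht) ht with h1 | h1
      · exact absurd h1.2 hsep
      · exact h1
    · rcases Pool.Agent.N800.AG.split hyT (hcross t ht).symm ht with h1 | h1
      · exact absurd h1.2.symm hsep
      · exact h1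
  have hval : Valid G T := Valid.of_two (by
    intro t ht
    obtain ⟨⟨u, hu, hut, hxu⟩, v, hv, hvt, hyv⟩ := hside t ht
    exact ⟨u, v, hu, hv, hut, hvt, fun huv => hsep ((hxu.trans huv).trans hyv.symm)⟩)
  have hbT : b ∈ T := by
    by_contra hb
    exact hsep ((h.xb.cn hdisj hxT hb).trans (h.yb.cn hdisj hyT hb).symm)
  obtain ⟨t, ht, htval⟩ := hAcc T hval ⟨b, hbT⟩
  have hc1 := hU T hval
  have hc2 := hU _ htval
  have hc3 := Finset.card_erase_of_mem ht
  have hc4 : 0 < T.card := Finset.card_pos.2 ⟨t, ht⟩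
  have hS : Sep G K x y T t := by
    refine ⟨hdisj, hxT, hyT, hsep, ht, ?_, hc1⟩
    intro w hw hwt
    by_contra hno
    push Not at hno
    obtain ⟨⟨u, hu, hut, hxu⟩, v, hv, hvt, hyv⟩ := hside t ht
    have := cc_erase_lt2 ht hu hut hv hvt hw hwt
      (fun huv => hsep ((hxu.trans huv).trans hyv.symm))
      (fun huw => hno.1 (hxu.trans huw)) (fun hvw => hno.2 (hyv.trans hvw))
    omega
  obtain ⟨kx, hkx, hbkx, htkx, sx, hsx, hxsx⟩ := sideNode hU hmax h hS
  obtain ⟨ky, hky, hbky, htky, sy, hsy, hysy⟩ := sideNode hU hmax h.symm hS.symm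
  have hclx := closed_cl (G := G) (K := K) h.xK hxT
  have hcly := closed_cl (G := G) (K := K) h.yK hyT
  have hclxy : ∀ s ∈ cl G T y ∪ cl G T x, s ∉ T ∧ (∃ w, w ∉ K ∧ Cn G T s w) ∧
      ∀ s', Cn G T s s' → s' ∈ cl G T y ∪ cl G T x := by
    intro s hs
    rcases Finset.mem_union.1 hs with h1 | h1
    · obtain ⟨e1, e2, e3⟩ := hcly s h1
      exact ⟨e1, e2, fun s' hs' => Finset.mem_union_left _ (e3 s' hs')⟩
    · obtain ⟨e1, e2, e3⟩ := hclx s h1
      exact ⟨e1, e2, fun s' hs' => Finset.mem_union_right _ (e3 s' hs')⟩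
  have n1 := countPat hU hmax h (A := AW G K b (cl G T y)) AW_sub notMem_NB_AW
    (notMem_NB_AW' hdisj hyT (Finset.Subset.refl _))
  rw [iso_AW hdisj hcly] at n1
  have n2 := countPat hU hmax h.symm (A := AW G K b (cl G T x)) AW_sub notMem_NB_AW
    (notMem_NB_AW' hdisj hxT (Finset.Subset.refl _))
  rw [iso_AW hdisj hclx] at n2
  have n0 := countPat hU hmax h (A := AW G K b (cl G T y ∪ cl G T x)) AW_sub notMem_NB_AW
    (notMem_NB_AW' hdisj hyT Finset.subset_union_left)
  rw [iso_AW hdisj hclxy] at n0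
  have key := inter_lemma hU (A := AW G K b (cl G T y)) (B := AW G K b (cl G T x)) AW_sub AW_sub
    n1 n2 (by rw [AW_inter]; exact n0) (p := b) notMem_NB_AW notMem_NB_AW
    (fun k hk hbk => h.bK (node_sub (mem_AW.1 hk).1 hbk))
    (fun k hk hbk => h.bK (node_sub (mem_AW.1 hk).1 hbk))
  have hmem : t ∈ NB G K (AW G K b (cl G T y)) ∩ NB G K (AW G K b (cl G T x)) := by
    refine Finset.mem_inter.2 ⟨mem_NB.2 ⟨kx, mem_AW.2 ⟨hkx, hbkx, ?_⟩, htkx⟩,
      mem_NB.2 ⟨ky, mem_AW.2 ⟨hky, hbky, ?_⟩, htky⟩⟩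
    · rw [Finset.disjoint_left]
      intro s hs hs'
      exact hsep ((hxsx.trans (node_conn hkx hsx hs hdisj)).trans (mem_cl.1 hs').symm)
    · rw [Finset.disjoint_left]
      intro s hs hs'
      exact hsep (((hysy.trans (node_conn hky hsy hs hdisj)).trans (mem_cl.1 hs').symm).symm)
  have hmem' := key hmem
  rw [AW_inter] at hmem'
  obtain ⟨k0, hk0, htk0⟩ := mem_NB.1 hmem'
  obtain ⟨hk0n, _, hk0d⟩ := mem_AW.1 hk0
  obtain ⟨_, s, hs, hst⟩ := mem_Nb.1 htk0
  have hsT : s ∉ T := fun h' => Finset.disjoint_left.1 hdisj h' (node_sub hk0n hs)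
  rcases hS.tAdj s hsT hst with h1 | h1
  · exact Finset.disjoint_left.1 hk0d hs (Finset.mem_union_right _ (mem_cl.2 h1))
  · exact Finset.disjoint_left.1 hk0d hs (Finset.mem_union_left _ (mem_cl.2 h1))

/-- there is no pattern at all -/
theorem noPat (hU : Unm G)
    (hAcc : ∀ T : Finset V, Valid G T → T.Nonempty → ∃ t ∈ T, Valid G (T.erase t))
    (K : Finset V) (x b y z : V) : ¬ Pat G K x b y z := by
  intro h
  obtain ⟨K', hK', hmax⟩ := Finset.exists_max_image
    ((univ : Finset (Finset V)).filter (fun K' => ∃ x b y z, Pat G K' x b y z))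
    Finset.card ⟨K, Finset.mem_filter.2 ⟨Finset.mem_univ _, x, b, y, z, h⟩⟩
  obtain ⟨_, x', b', y', z', h'⟩ := Finset.mem_filter.1 hK'
  refine noPattern hU hAcc (K := K') ?_ h'
  intro K'' x'' b'' y'' z'' h''
  exact hmax K'' (Finset.mem_filter.2 ⟨Finset.mem_univ _, x'', b'', y'', z'', h''⟩)

end Pool.Agent.N800.AG
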